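import Pool.Agent.Lib.MP_146573_gt.C.Borel

open Pool.Agent.Lib.MP_146573_gt

/-- HyperKaehler Kirwan surjectivity fails in degree two for a linear action of a compact
connected group on a flat space, with free action on a connected zero level set and with all
forward gradient flow lines of the norm square of the moment map contained in compact sets. -/
theorem Pool.Agent.Results.MP_146573_gt.ConnectedFailure.result :
    ∃ (G V L : Type) (_ : Group G) (_ : TopologicalSpace G) (_ : IsTopologicalGroup G)
      (_ : CompactSpace G) (_ : ConnectedSpace G)
      (_ : NormedAddCommGroup V) (_ : InnerProductSpace ℝ V) (_ : CompleteSpace V)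
      (_ : MulAction G V) (_ : ContinuousSMul G V) (_ : FaithfulSMul G V)
      (_ : NormedAddCommGroup L) (_ : InnerProductSpace ℝ L) (D : HyperHam G V L),
      Module.finrank ℝ V = 24 ∧
      (∀ g : G, ∀ x ∈ D.zeroLevel, g • x = x → g = 1) ∧
      IsConnected (D.zeroLevel : Set V) ∧
      ContDiff ℝ ⊤ D.normSq ∧ FlowCompact D.normSq ∧
      ∀ (E : Type) [TopologicalSpace E] [MulAction G E] [ContinuousSMul G E]
        [ContractibleSpace E], ¬ Function.Surjective (D.kirwan E 2) := by
  refine ⟨C.grp, C.V6, Quaternion ℝ, inferInstance, inferInstance, C.grp_topGroup,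
    isCompact_iff_compactSpace.mp C.grp_compact, isConnected_iff_connectedSpace.mp C.grp_connected,
    inferInstance, inferInstance, inferInstance, inferInstance, C.grp_continuousSMul,
    C.grp_faithful, inferInstance, inferInstance, C.model, C.finrank_V6, C.model_free,
    C.model_connected, ?_, ?_, ?_⟩
  · rw [C.model_normSq]
    exact C.contDiff_ff
  · rw [C.model_normSq]
    exact C.ff_flowCompact
  · intro E _ _ _ _
    exact C.model_not_surjective E
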