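import Pool.Agent.Lib.MP_146573_gt.Model

open Pool.Agent.Lib.MP_146573_gt

/-- HyperKaehler Kirwan surjectivity fails for a linear action of a compact connected group on a
flat space, with proper norm square of the moment map and free action on the zero level set. -/
theorem Pool.Agent.Results.MP_146573_gt.KirwanFails.result :
    ∃ (G V L : Type) (_ : Group G) (_ : TopologicalSpace G) (_ : IsTopologicalGroup G)
      (_ : CompactSpace G) (_ : ConnectedSpace G)
      (_ : NormedAddCommGroup V) (_ : InnerProductSpace ℝ V) (_ : CompleteSpace V)
      (_ : MulAction G V) (_ : ContinuousSMul G V) (_ : FaithfulSMul G V)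
      (_ : NormedAddCommGroup L) (_ : InnerProductSpace ℝ L) (D : HyperHam G V L),
      Module.finrank ℝ V = 16 ∧
      (∀ g : G, ∀ x ∈ D.zeroLevel, g • x = x → g = 1) ∧
      ContDiff ℝ ⊤ D.normSq ∧ IsProperMap D.normSq ∧ FlowCompact D.normSq ∧
      ∀ (E : Type) [TopologicalSpace E] [MulAction G E] [ContinuousSMul G E]
        [ContractibleSpace E], ¬ Function.Surjective (D.kirwan E 0) := by
  refine ⟨grp, V4, Quaternion ℝ, inferInstance, inferInstance, grp_topGroup,
    isCompact_iff_compactSpace.mp grp_compact, isConnected_iff_connectedSpace.mp grp_connected,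
    inferInstance, inferInstance, inferInstance, inferInstance, grp_continuousSMul, grp_faithful,
    inferInstance, inferInstance, model, finrank_V4, model_free, ?_, ?_, ?_, ?_⟩
  · rw [model_normSq]
    exact contDiff_ff cc
  · rw [model_normSq]
    exact isProperMap_ff cc
  · rw [model_normSq]
    exact model_flowCompact
  · intro E _ _ _ _
    exact model_not_surjective E
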